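import Mathlib

/-!
# The proposed bound `a_n ≥ ⌊log n⌋ - 1` fails (at `n = 99577`)
-/

namespace Pool.Agent.Results.MP_b2f6ce_nt.LogBoundFails

/-- The set of triples `(a, q, p)` of integers with `a ≥ 1`, `q ≥ 1`, `p ≥ 0` and
`n = 2pqa + aq + q + p`. -/
def Sol (n : ℕ) : Set (ℕ × ℕ × ℕ) :=
  {t | 1 ≤ t.1 ∧ 1 ≤ t.2.1 ∧ n = 2 * t.2.2 * t.2.1 * t.1 + t.1 * t.2.1 + t.2.1 + t.2.2}

/-- `a_n = N(n) + 1`, where `N(n)` is the number of solutions. -/
noncomputable def aSeq (n : ℕ) : ℕ := (Sol n).ncard + 1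

/-- `f i = true` for all `i` in `1..N` -/
def allTo (f : ℕ → Bool) : ℕ → Bool
  | 0 => true
  | (k + 1) => f (k + 1) && allTo f k

lemma allTo_spec {f : ℕ → Bool} {N : ℕ} (h : allTo f N = true) :
    ∀ i, 1 ≤ i → i ≤ N → f i = true := by
  induction N with
  | zero => intro i h1 h2; omega
  | succ N ih =>
    intro i h1 h2
    unfold allTo at h
    rw [Bool.and_eq_true] at h
    rcases Nat.lt_or_ge i (N + 1) with hlt | hge
    · exact ih h.2 i h1 (by omega)
    · have : i = N + 1 := by omega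
      subst this; exact h.1

/-- membership of `(a, q, p)` in the list of solutions for `n = 99577` -/
def good (a q p : ℕ) : Bool :=
  (Nat.beq a 99576 && Nat.beq q 1 && Nat.beq p 0) ||
  (Nat.beq a 1 && Nat.beq q 24894 && Nat.beq p 1) ||
  (Nat.beq a 307 && Nat.beq q 108 && Nat.beq p 1) ||
  (Nat.beq a 1229 && Nat.beq q 27 && Nat.beq p 1) ||
  (Nat.beq a 655 && Nat.beq q 8 && Nat.beq p 9) ||
  (Nat.beq a 4 && Nat.beq q 314 && Nat.beq p 39) ||
  (Nat.beq a 17 && Nat.beq q 30 && Nat.beq p 97) ||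
  (Nat.beq a 9 && Nat.beq q 6 && Nat.beq p 913)

/-- test for given `p`, `a` -/
def fA (p a : ℕ) : Bool :=
  bif Nat.beq ((99577 - p) % (a * (2 * p + 1) + 1)) 0 then
    good a ((99577 - p) / (a * (2 * p + 1) + 1)) p else true

/-- test for given `p`, `q` -/
def fB (p q : ℕ) : Bool :=
  bif Nat.beq ((99577 - p - q) % (q * (2 * p + 1))) 0 then
    (Nat.beq ((99577 - p - q) / (q * (2 * p + 1))) 0 ||
      good ((99577 - p - q) / (q * (2 * p + 1))) q p) else true

/-- test for given `a`, `q` -/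
def fC (a q : ℕ) : Bool :=
  bif Nat.beq ((99577 - a * q - q) % (2 * q * a + 1)) 0 then
    good a q ((99577 - a * q - q) / (2 * q * a + 1)) || Nat.blt ((99577 - a * q - q) / (2 * q * a + 1)) 60
    else true

set_option maxRecDepth 100000 in
lemma checkA : allTo (fun k => allTo (fA (k - 1)) 315) 60 = true := by decide +kernel

set_option maxRecDepth 100000 in
lemma checkB : allTo (fun k => allTo (fB (k - 1)) 315) 60 = true := by decide +kernel

set_option maxRecDepth 100000 in
lemma checkC : allTo (fun a => allTo (fC a) (823 / a)) 823 = true := by decide +kernel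

lemma good_spec {a q p : ℕ} (h : good a q p = true) :
    (a, q, p) ∈ ({(99576, 1, 0), (1, 24894, 1), (307, 108, 1), (1229, 27, 1), (655, 8, 9),
      (4, 314, 39), (17, 30, 97), (9, 6, 913)} : Finset (ℕ × ℕ × ℕ)) := by
  simp only [good, Bool.or_eq_true, Bool.and_eq_true, Nat.beq_eq] at h
  rcases h with ((((((h | h) | h) | h) | h) | h) | h) | h <;>
  · obtain ⟨⟨rfl, rfl⟩, rfl⟩ := h
    simp

lemma good_of_eq {a q p : ℕ} (ha : 1 ≤ a) (hq : 1 ≤ q)
    (h : 99577 = 2 * p * q * a + a * q + q + p) : good a q p = true := by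
  by_cases hp : p < 60
  · -- small p
    have hle : a * q ≤ 99577 := by
      have : 0 ≤ 2 * p * q * a := Nat.zero_le _
      omega
    rcases Nat.lt_or_ge 315 a with h1 | h1
    · -- then q ≤ 315
      have hq' : q ≤ 315 := by
        by_contra hcon
        have : 316 * 316 ≤ a * q := Nat.mul_le_mul (by omega) (by omega)
        omega
      have := allTo_spec (allTo_spec checkB (p + 1) (by omega) (by omega)) q hq hq'
      simp only [Nat.add_sub_cancel] at this
      have e : 99577 - p - q = (q * (2 * p + 1)) * a := by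
        have : q * (2 * p + 1) * a = 2 * p * q * a + a * q := by ring
        omega
      have hpos : 0 < q * (2 * p + 1) := by positivity
      unfold fB at this
      rw [e, Nat.mul_mod_right, Nat.mul_div_cancel_left _ hpos] at this
      have ha0 : Nat.beq a 0 = false := by
        rcases a with _ | a
        · omega
        · rfl
      rw [ha0] at this
      simpa using this
    · have := allTo_spec (allTo_spec checkA (p + 1) (by omega) (by omega)) a ha h1
      simp only [Nat.add_sub_cancel] at this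
      have e : 99577 - p = (a * (2 * p + 1) + 1) * q := by
        have : (a * (2 * p + 1) + 1) * q = 2 * p * q * a + a * q + q := by ring
        omega
      have hpos : 0 < a * (2 * p + 1) + 1 := by positivity
      unfold fA at this
      rw [e, Nat.mul_mod_right, Nat.mul_div_cancel_left _ hpos] at this
      simpa using this
  · -- large p: `a q ≤ 823`
    have hp' : 60 ≤ p := not_lt.1 hp
    have haq : 1 ≤ a * q := Nat.mul_pos ha hq
    have h121 : 121 * (a * q) ≤ 99577 := by
      have : 2 * p * q * a = 2 * (p * (a * q)) := by ring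
      have h2 : 60 * (a * q) ≤ p * (a * q) := Nat.mul_le_mul_right _ hp'
      omega
    have haq' : a * q ≤ 823 := by omega
    have ha' : a ≤ 823 := le_trans (Nat.le_mul_of_pos_right a hq) haq'
    have hq' : q ≤ 823 / a := by
      rw [Nat.le_div_iff_mul_le ha, mul_comm]; exact haq'
    have := allTo_spec (allTo_spec checkC a ha ha') q hq hq'
    have e : 99577 - a * q - q = (2 * q * a + 1) * p := by
      have : (2 * q * a + 1) * p = 2 * p * q * a + p := by ring
      omega
    have hpos : 0 < 2 * q * a + 1 := by positivity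
    unfold fC at this
    rw [e, Nat.mul_mod_right, Nat.mul_div_cancel_left _ hpos] at this
    have hb : Nat.blt p 60 = false := by
      rw [← Bool.not_eq_true, Nat.blt_eq]; exact hp
    rw [hb] at this
    simpa using this

lemma sol_eq : Sol 99577 = (({(99576, 1, 0), (1, 24894, 1), (307, 108, 1), (1229, 27, 1),
    (655, 8, 9), (4, 314, 39), (17, 30, 97), (9, 6, 913)} : Finset (ℕ × ℕ × ℕ)) :
      Set (ℕ × ℕ × ℕ)) := by
  ext ⟨a, q, p⟩
  constructor
  · rintro ⟨ha, hq, h⟩
    exact good_spec (good_of_eq ha hq h)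
  · intro h
    simp only [Finset.coe_insert, Finset.coe_singleton, Set.mem_insert_iff,
      Set.mem_singleton_iff, Prod.mk.injEq] at h
    simp only [Sol, Set.mem_ofPred_eq]
    rcases h with ⟨rfl, rfl, rfl⟩ | ⟨rfl, rfl, rfl⟩ | ⟨rfl, rfl, rfl⟩ | ⟨rfl, rfl, rfl⟩ |
      ⟨rfl, rfl, rfl⟩ | ⟨rfl, rfl, rfl⟩ | ⟨rfl, rfl, rfl⟩ | ⟨rfl, rfl, rfl⟩ <;> norm_num

lemma aSeq_eq : aSeq 99577 = 9 := by
  unfold aSeq
  rw [sol_eq, Set.ncard_coe_finset]
  rfl

/-- The negation of Q2: some `n ≥ 1` has `a_n ≤ ⌊log n⌋ - 2` (namely `n = 99577`, where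
`a_n = 9` and `⌊log n⌋ = 11`). -/
theorem result : ∃ n : ℕ, 1 ≤ n ∧ (aSeq n : ℤ) ≤ ⌊Real.log n⌋ - 2 := by
  refine ⟨99577, by norm_num, ?_⟩
  rw [aSeq_eq]
  have h : (11 : ℝ) ≤ Real.log ((99577 : ℕ) : ℝ) := by
    rw [Real.le_log_iff_exp_le (by norm_num)]
    have h1 : Real.exp 11 = Real.exp 1 ^ 11 := by
      rw [← Real.exp_nat_mul]; norm_num
    rw [h1]
    have h2 : Real.exp 1 ^ 11 ≤ 2.7182818286 ^ 11 :=
      pow_le_pow_left₀ (Real.exp_pos 1).le Real.exp_one_lt_d9.le 11
    refine h2.trans ?_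
    norm_num
  have h3 : (11 : ℤ) ≤ ⌊Real.log ((99577 : ℕ) : ℝ)⌋ := by
    rw [Int.le_floor]; exact_mod_cast h
  push_cast at h3 ⊢
  omega

end Pool.Agent.Results.MP_b2f6ce_nt.LogBoundFails
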